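import Mathlib
import Pool.Prelude.Def_F_c31e40fa
import Pool.Agent.R241.BifDef
import Pool.Agent.R241.Bif6

/-!
# Question 2 has a negative answer: equality at non-real parameters near the cusp

For all parameters `c` in a region with non-empty interior to the left of the cusp `1 / 4` of the
Mandelbrot set, the disc of radius `C / 4` which is tangent at `1 / 2` to the disc
`1 / 2 + closedBall(w, |w|)`, `w = c - 1 / 4`, `C = - Re w / |w|`, is invariant under all the maps
`z ^ 2 + a`, `|a - c| ≤ |c - 1 / 4|`.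
-/

set_option autoImplicit false

open Metric

namespace Pool.Agent.Results.MP_77ccbb_an.EqualityNearCusp

open Pool.Agent.R241.Bif

/-- There is a parameter `c` outside of the boundary of the Mandelbrot set and outside of the
segment `[0, 1 / 4]` at which the bifurcation radius is equal to the distance of `c` to the boundary
of the Mandelbrot set. Indeed this holds, and the distance is `|c - 1 / 4|`, for all the `c` with
`40 |c - 1 / 4| ^ 4 ≤ (1 / 4 - Re c) ^ 3`. -/
theorem result :
    (∃ c : ℂ, c ∉ frontier N62a1eb23.mandelbrotSet ∧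
      (¬ ∃ t : ℝ, 0 ≤ t ∧ t ≤ 1 / 4 ∧ c = t) ∧
      rbif c = infDist c (frontier N62a1eb23.mandelbrotSet)) ∧
    ∀ c : ℂ, 40 * ‖c - 1 / 4‖ ^ 4 ≤ (1 / 4 - c.re) ^ 3 →
      rbif c = ‖c - 1 / 4‖ ∧ infDist c (frontier N62a1eb23.mandelbrotSet) = ‖c - 1 / 4‖ := by
  refine ⟨?_, fun c hc => region hc⟩
  set c : ℂ := ⟨1 / 4 - 4 / 500, 3 / 500⟩ with hc
  have hn : ‖c - 1 / 4‖ = 1 / 100 := by
    have h1 : c - 1 / 4 = ⟨-(4 / 500), 3 / 500⟩ := by
      apply Complex.ext
      · simp [hc]
      · simp [hc]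
    have h2 : ‖c - 1 / 4‖ ^ 2 = (1 / 100) ^ 2 := by
      rw [← Complex.normSq_eq_norm_sq, h1, Complex.normSq_apply]
      norm_num
    exact (pow_left_inj₀ (norm_nonneg _) (by norm_num) two_ne_zero).1 h2
  have h3 : 40 * ‖c - 1 / 4‖ ^ 4 ≤ (1 / 4 - c.re) ^ 3 := by
    rw [hn]
    simp only [hc]
    norm_num
  obtain ⟨h4, h5⟩ := region h3
  refine ⟨c, ?_, ?_, by rw [h4, h5]⟩
  · intro h6
    rw [infDist_zero_of_mem h6, hn] at h5
    norm_num at h5
  · rintro ⟨t, -, -, ht⟩
    have := congrArg Complex.im ht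
    simp [hc] at this

end Pool.Agent.Results.MP_77ccbb_an.EqualityNearCusp
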