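import Mathlib
import Pool.Prelude.Def_F_c31e40fa
import Pool.Agent.R241.BifDef
import Pool.Agent.R241.Bif5

/-!
# Question 1: outside of the main cardioid the bifurcation radius is smaller than the distance to
the boundary of the Mandelbrot set

Idea. Suppose that `r_bif(c) ≥ R`, the distance of `c` to the boundary, and let `c⋆` be a nearest
boundary point, `w = c - c⋆`. A limit of planar minimal sets is a compact set `L` with
`f_{c⋆}(L) + closedBall(w, R) ⊆ L`. If an iterate of `f_{c⋆}` mapped `L` into its interior, then the
parameters near `c⋆` would have robustly invariant compact sets, hence attracting cycles, and `c⋆`
would be an interior point. So there is an orbit of `f_{c⋆}` in the topological boundary of `L`. The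
tangent discs at its points have all the same direction `w`, and this forces the derivatives `2 z`
along the orbit to be positive; the orbit is real and monotone, and converges to a fixed point
`p ∈ L` of `f_{c⋆}`. The segment from `p` to `f_c(p) = p + w` is in `L`, and by the uniform
contraction of `f_c` on `L` its iterates converge to an attracting fixed point of `f_c`.
-/

set_option autoImplicit false

open Metric

namespace Pool.Agent.Results.MP_77ccbb_an.StrictOutsideCardioid

open Pool.Agent.R241.Bif

/-- For every `c` outside of the boundary of the Mandelbrot set and outside of the main cardioid the
bifurcation radius is smaller than the distance of `c` to the boundary of the Mandelbrot set. -/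
theorem result : ∀ c : ℂ, c ∉ frontier N62a1eb23.mandelbrotSet → c ∉ mainCardioid →
    rbif c < infDist c (frontier N62a1eb23.mandelbrotSet) :=
  fun _ hc hm => q1 hc hm

end Pool.Agent.Results.MP_77ccbb_an.StrictOutsideCardioid
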